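import Pool.Agent.Helper97.FS.Stmts

set_option autoImplicit false

namespace Pool.Agent.Helper97.FS

open Finset MeasureTheory Filter Topology
open Pool.Agent.Helper97.Sub

/-- normalized powers -/
noncomputable def pf_A {d : ℕ} (M : Matrix (Fin d) (Fin d) ℤ) (θ : ℝ) (k : ℕ) (b a : Fin d) : ℝ :=
  (((M ^ k) b a : ℤ) : ℝ) / θ ^ k

lemma pf_A_add {d : ℕ} (M : Matrix (Fin d) (Fin d) ℤ) {θ : ℝ} (hθ : 1 < θ) (k j : ℕ)
    (b a : Fin d) : pf_A M θ (k + j) b a = ∑ c, pf_A M θ k b c * pf_A M θ j c a := by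
  have h : θ ≠ 0 := by linarith
  unfold pf_A
  rw [pow_add, Matrix.mul_apply, pow_add]
  push_cast
  rw [Finset.sum_div]
  refine Finset.sum_congr rfl fun c _ => ?_
  field_simp

lemma pf_A_zero {d : ℕ} (M : Matrix (Fin d) (Fin d) ℤ) (θ : ℝ) (b a : Fin d) :
    pf_A M θ 0 b a = if b = a then 1 else 0 := by
  unfold pf_A
  rw [pow_zero, Matrix.one_apply]
  split_ifs <;> simp

lemma pf_pow_nonneg {d : ℕ} (M : Matrix (Fin d) (Fin d) ℤ) (h0 : ∀ i j, 0 ≤ M i j) (k : ℕ) :
    ∀ i j, 0 ≤ (M ^ k) i j := by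
  induction k with
  | zero =>
    intro i j
    rw [pow_zero, Matrix.one_apply]
    split_ifs <;> simp
  | succ k ih =>
    intro i j
    rw [pow_succ, Matrix.mul_apply]
    exact Finset.sum_nonneg fun c _ => mul_nonneg (ih i c) (h0 c j)

lemma pf_A_nonneg {d : ℕ} (M : Matrix (Fin d) (Fin d) ℤ) {θ : ℝ} (hθ : 1 < θ)
    (h0 : ∀ i j, 0 ≤ M i j) (k : ℕ) (b a : Fin d) : 0 ≤ pf_A M θ k b a := by
  unfold pf_A
  have : (0 : ℝ) ≤ (((M ^ k) b a : ℤ) : ℝ) := by exact_mod_cast pf_pow_nonneg M h0 k b a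
  positivity

/-- existence of the left eigenvector -/
lemma pf_left {d : ℕ} (M : Matrix (Fin d) (Fin d) ℤ) {θ : ℝ} (hθ : 1 < θ)
    (c C : ℝ) (hc : 0 < c)
    (hell : ∀ (k : ℕ) (a : Fin d),
      c ≤ ∑ b, pf_A M θ k b a ∧ ∑ b, pf_A M θ k b a ≤ C) :
    ∃ L : Fin d → ℝ, (∀ a, 0 < L a) ∧ ∀ a, ∑ b, L b * pf_A M θ 1 b a = L a := by
  classical
  set e : ℕ → Fin d → ℝ := fun k a => ∑ b, pf_A M θ k b a with he
  set g : ℕ → Fin d → ℝ := fun K a => (∑ k ∈ range (K + 1), e k a) / ((K : ℝ) + 1) with hg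
  have hg1 : ∀ K, g K ∈ Set.Icc (fun _ : Fin d => c) (fun _ => C) := by
    intro K
    have hK : (0 : ℝ) < (K : ℝ) + 1 := by positivity
    constructor
    · intro a
      simp only [hg]
      rw [le_div_iff₀ hK]
      calc c * ((K : ℝ) + 1) = ∑ _k ∈ range (K + 1), c := by
            rw [Finset.sum_const, card_range, nsmul_eq_mul]; push_cast; ring
        _ ≤ ∑ k ∈ range (K + 1), e k a := Finset.sum_le_sum fun k _ => (hell k a).1
    · intro a
      simp only [hg]
      rw [div_le_iff₀ hK]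
      calc ∑ k ∈ range (K + 1), e k a ≤ ∑ _k ∈ range (K + 1), C :=
            Finset.sum_le_sum fun k _ => (hell k a).2
        _ = C * ((K : ℝ) + 1) := by
            rw [Finset.sum_const, card_range, nsmul_eq_mul]; push_cast; ring
  obtain ⟨L, hL, φ, hφ, hlim⟩ :=
    (isCompact_Icc (a := fun _ : Fin d => c) (b := fun _ => C)).tendsto_subseq hg1
  refine ⟨L, fun a => lt_of_lt_of_le hc (hL.1 a), fun a => ?_⟩
  have hlima : ∀ b, Tendsto (fun n => g (φ n) b) atTop (𝓝 (L b)) := by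
    intro b
    exact (tendsto_pi_nhds.1 hlim) b
  have h1 : Tendsto (fun n => ∑ b, g (φ n) b * pf_A M θ 1 b a) atTop
      (𝓝 (∑ b, L b * pf_A M θ 1 b a)) :=
    tendsto_finsetSum _ fun b _ => (hlima b).mul_const _
  have hstep : ∀ K, ∑ b, g K b * pf_A M θ 1 b a = g K a + (e (K + 1) a - e 0 a) / ((K : ℝ) + 1) := by
    intro K
    have h2 : ∀ k, ∑ b, e k b * pf_A M θ 1 b a = e (k + 1) a := by
      intro k
      simp only [he]
      calc ∑ b, (∑ b', pf_A M θ k b' b) * pf_A M θ 1 b a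
          = ∑ b, ∑ b', pf_A M θ k b' b * pf_A M θ 1 b a := by
            refine Finset.sum_congr rfl fun b _ => ?_
            rw [Finset.sum_mul]
        _ = ∑ b', ∑ b, pf_A M θ k b' b * pf_A M θ 1 b a := Finset.sum_comm
        _ = ∑ b', pf_A M θ (k + 1) b' a := by
            refine Finset.sum_congr rfl fun b' _ => ?_
            rw [pf_A_add M hθ]
    have h3 : ∑ b, g K b * pf_A M θ 1 b a
        = (∑ k ∈ range (K + 1), e (k + 1) a) / ((K : ℝ) + 1) := by
      simp only [hg]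
      calc ∑ b, (∑ k ∈ range (K + 1), e k b) / ((K : ℝ) + 1) * pf_A M θ 1 b a
          = (∑ b, ∑ k ∈ range (K + 1), e k b * pf_A M θ 1 b a) / ((K : ℝ) + 1) := by
            rw [Finset.sum_div]
            refine Finset.sum_congr rfl fun b _ => ?_
            rw [← Finset.sum_mul]
            ring
        _ = _ := by
            rw [Finset.sum_comm]
            congr 1
            exact Finset.sum_congr rfl fun k _ => h2 k
    rw [h3]
    simp only [hg]
    rw [← add_div]
    congr 1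
    have h4 := Finset.sum_range_succ' (fun k => e k a) (K + 1)
    have h5 := Finset.sum_range_succ (fun k => e k a) (K + 1)
    linarith
  have h6 : Tendsto (fun n : ℕ => (e (φ n + 1) a - e 0 a) / ((φ n : ℝ) + 1)) atTop (𝓝 0) := by
    have hb : ∀ n : ℕ, ‖(e (φ n + 1) a - e 0 a) / ((φ n : ℝ) + 1)‖ ≤ (2 * |C|) / ((φ n : ℝ) + 1) := by
      intro n
      have hK : (0 : ℝ) < (φ n : ℝ) + 1 := by positivity
      rw [Real.norm_eq_abs, abs_div, abs_of_pos hK]
      refine div_le_div_of_nonneg_right ?_ hK.le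
      have a1 := hell (φ n + 1) a
      have a2 := hell 0 a
      have a3 := le_abs_self C
      rw [abs_le]
      constructor
      · simp only [he]; linarith [a1.1, a2.2]
      · simp only [he]; linarith [a1.2, a2.1]
    refine squeeze_zero_norm hb ?_
    have h7 : Tendsto (fun n : ℕ => (φ n : ℝ) + 1) atTop atTop :=
      tendsto_atTop_add_const_right _ _ (tendsto_natCast_atTop_atTop.comp hφ.tendsto_atTop)
    exact Tendsto.const_div_atTop h7 _
  have h8 : Tendsto (fun n => ∑ b, g (φ n) b * pf_A M θ 1 b a) atTop (𝓝 (L a + 0)) := by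
    have := (hlima a).add h6
    refine this.congr fun n => ?_
    rw [hstep]
  rw [add_zero] at h8
  exact tendsto_nhds_unique h1 h8

/-- weighted averages -/
lemma pf_avg {d : ℕ} (q x : Fin d → ℝ) (hq : ∀ c, 0 ≤ q c) (hs : ∑ c, q c = 1) (lo hi : ℝ)
    (h1 : ∀ c, lo ≤ x c) (h2 : ∀ c, x c ≤ hi) : lo ≤ ∑ c, q c * x c ∧ ∑ c, q c * x c ≤ hi := by
  constructor
  · calc lo = ∑ c, q c * lo := by rw [← Finset.sum_mul, hs, one_mul]
      _ ≤ _ := Finset.sum_le_sum fun c _ => mul_le_mul_of_nonneg_left (h1 c) (hq c)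
  · calc ∑ c, q c * x c ≤ ∑ c, q c * hi :=
        Finset.sum_le_sum fun c _ => mul_le_mul_of_nonneg_left (h2 c) (hq c)
      _ = hi := by rw [← Finset.sum_mul, hs, one_mul]

lemma pf_contract {d : ℕ} (hd : 0 < d) (Q : Fin d → Fin d → ℝ) (x : Fin d → ℝ) (α D : ℝ)
    (hα : 0 ≤ α) (hQ : ∀ a c, α ≤ Q a c) (hs : ∀ a, ∑ c, Q a c = 1)
    (hD : ∀ c c', x c - x c' ≤ D) (a a' : Fin d) :
    ∑ c, Q a c * x c - ∑ c, Q a' c * x c ≤ (1 - α) * D := by
  haveI : Nonempty (Fin d) := ⟨⟨0, hd⟩⟩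
  obtain ⟨c0, hc0⟩ := Finite.exists_min x
  obtain ⟨c1, hc1⟩ := Finite.exists_max x
  have hQ0 : ∀ a c, 0 ≤ Q a c := fun a c => le_trans hα (hQ a c)
  have h1 := (pf_avg (Q a') x (hQ0 a') (hs a') (x c0) (x c1) hc0 hc1).1
  have h2 : ∑ c, Q a c * x c ≤ x c1 - α * (x c1 - x c0) := by
    have h3 : ∑ c, Q a c * (x c1 - x c) = x c1 - ∑ c, Q a c * x c := by
      simp only [mul_sub, Finset.sum_sub_distrib]
      rw [← Finset.sum_mul, hs, one_mul]
    have h4 : Q a c0 * (x c1 - x c0) ≤ ∑ c, Q a c * (x c1 - x c) :=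
      Finset.single_le_sum (f := fun c => Q a c * (x c1 - x c))
        (fun c _ => mul_nonneg (hQ0 a c) (by linarith [hc1 c])) (Finset.mem_univ c0)
    have h5 : α * (x c1 - x c0) ≤ Q a c0 * (x c1 - x c0) :=
      mul_le_mul_of_nonneg_right (hQ a c0) (by linarith [hc1 c0])
    linarith
  have hα1 : α ≤ 1 := by
    have h6 : Q a c0 ≤ ∑ c, Q a c :=
      Finset.single_le_sum (f := fun c => Q a c) (fun c _ => hQ0 a c) (Finset.mem_univ c0)
    linarith [hQ a c0, hs a]
  have h7 := hD c1 c0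
  have h8 : (1 - α) * (x c1 - x c0) ≤ (1 - α) * D :=
    mul_le_mul_of_nonneg_left h7 (by linarith)
  nlinarith

theorem st_PF : ST_PF := by
  classical
  intro d M θ hd h0 hprim hθ hell
  obtain ⟨k0, hk0⟩ := hprim
  obtain ⟨c, hc, C, hcC⟩ := hell
  have hθ0 : 0 < θ := by linarith
  haveI : Nonempty (Fin d) := ⟨⟨0, hd⟩⟩
  have hell' : ∀ (k : ℕ) (a : Fin d),
      c ≤ ∑ b, pf_A M θ k b a ∧ ∑ b, pf_A M θ k b a ≤ C := by
    intro k a
    have h1 : ∑ b, pf_A M θ k b a = ((ell M k a : ℤ) : ℝ) / θ ^ k := by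
      unfold pf_A ell
      rw [← Finset.sum_div]
      push_cast
      rfl
    have hp : 0 < θ ^ k := by positivity
    rw [h1, le_div_iff₀ hp, div_le_iff₀ hp]
    exact hcC k a
  obtain ⟨L, hL, hLe⟩ := pf_left M hθ c C hc hell'
  have hA0 := pf_A_nonneg M hθ h0
  -- L A^j = L
  have hLj : ∀ j a, ∑ b, L b * pf_A M θ j b a = L a := by
    intro j
    induction j with
    | zero =>
      intro a
      simp [pf_A_zero]
    | succ j ih =>
      intro a
      calc ∑ b, L b * pf_A M θ (j + 1) b a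
          = ∑ b, ∑ c, L b * (pf_A M θ j b c * pf_A M θ 1 c a) := by
            refine Finset.sum_congr rfl fun b _ => ?_
            rw [pf_A_add M hθ, Finset.mul_sum]
        _ = ∑ c, ∑ b, L b * (pf_A M θ j b c * pf_A M θ 1 c a) := Finset.sum_comm
        _ = ∑ c, L c * pf_A M θ 1 c a := by
            refine Finset.sum_congr rfl fun c _ => ?_
            rw [← ih c, Finset.sum_mul]
            exact Finset.sum_congr rfl fun b _ => by ring
        _ = L a := hLe a
  -- weights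
  set Q : ℕ → Fin d → Fin d → ℝ := fun j a c => L c * pf_A M θ j c a / L a with hQ
  have hQs : ∀ j a, ∑ c, Q j a c = 1 := by
    intro j a
    simp only [hQ]
    rw [← Finset.sum_div, hLj j a]
    exact div_self (hL a).ne'
  have hQ0 : ∀ j a c, 0 ≤ Q j a c := fun j a c =>
    div_nonneg (mul_nonneg (hL c).le (hA0 j c a)) (hL a).le
  have hQpos : ∀ a c, 0 < Q k0 a c := by
    intro a c
    have : (0 : ℝ) < (((M ^ k0) c a : ℤ) : ℝ) := by exact_mod_cast hk0 c a
    exact div_pos (mul_pos (hL c) (div_pos this (by positivity))) (hL a)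
  obtain ⟨α, hα, hQα⟩ : ∃ α : ℝ, 0 < α ∧ ∀ a c, α ≤ Q k0 a c := by
    obtain ⟨p, hp⟩ := Finite.exists_min (fun p : Fin d × Fin d => Q k0 p.1 p.2)
    exact ⟨Q k0 p.1 p.2, hQpos _ _, fun a c => hp (a, c)⟩
  have hα1 : α ≤ 1 := by
    have c0 : Fin d := ⟨0, hd⟩
    have h6 : Q k0 c0 c0 ≤ ∑ c, Q k0 c0 c :=
      Finset.single_le_sum (f := fun c => Q k0 c0 c) (fun c _ => hQ0 k0 c0 c) (Finset.mem_univ c0)
    linarith [hQα c0 c0, hQs k0 c0]
  -- the columns
  set y : Fin d → ℕ → Fin d → ℝ := fun b k a => pf_A M θ k b a / L a with hy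
  have hyadd : ∀ b k j a, y b (k + j) a = ∑ c, Q j a c * y b k c := by
    intro b k j a
    simp only [hy, hQ]
    rw [pf_A_add M hθ, Finset.sum_div]
    refine Finset.sum_congr rfl fun c _ => ?_
    have h1 := (hL a).ne'
    have h2 := (hL c).ne'
    field_simp
  -- oscillation
  obtain ⟨D, hD0, hD⟩ : ∃ D : ℝ, 0 ≤ D ∧ ∀ b c c', y b 0 c - y b 0 c' ≤ D := by
    obtain ⟨p, hp⟩ := Finite.exists_max (fun p : Fin d × Fin d × Fin d =>
      y p.1 0 p.2.1 - y p.1 0 p.2.2)
    refine ⟨y p.1 0 p.2.1 - y p.1 0 p.2.2, ?_, fun b c c' => hp (b, c, c')⟩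
    have := hp (⟨0, hd⟩, ⟨0, hd⟩, ⟨0, hd⟩)
    simpa using this
  have hosc : ∀ b n a a', y b (n * k0) a - y b (n * k0) a' ≤ (1 - α) ^ n * D := by
    intro b n
    induction n with
    | zero =>
      intro a a'
      simpa using hD b a a'
    | succ n ih =>
      intro a a'
      have h1 : (n + 1) * k0 = n * k0 + k0 := by ring
      rw [h1, hyadd, hyadd]
      have := pf_contract hd (Q k0) (y b (n * k0)) α _ hα.le hQα (hQs k0) ih a a'
      calc _ ≤ _ := this
        _ = (1 - α) ^ (n + 1) * D := by ring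
  have hsmall : ∀ b, ∀ ε : ℝ, 0 < ε → ∃ N : ℕ, ∀ a a', y b N a - y b N a' ≤ ε := by
    intro b ε hε
    have hlim : Tendsto (fun n : ℕ => (1 - α) ^ n * D) atTop (𝓝 (0 * D)) :=
      (tendsto_pow_atTop_nhds_zero_of_lt_one (by linarith) (by linarith)).mul_const D
    rw [zero_mul] at hlim
    obtain ⟨n, hn⟩ := (hlim.eventually (gt_mem_nhds hε)).exists
    exact ⟨n * k0, fun a a' => le_trans (hosc b n a a') hn.le⟩
  -- all later values are averages
  have hlater : ∀ b N ε, (∀ a a', y b N a - y b N a' ≤ ε) → ∀ n, N ≤ n → ∀ a c,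
      |y b n a - y b N c| ≤ ε := by
    intro b N ε hN n hn a c
    obtain ⟨j, rfl⟩ := Nat.exists_eq_add_of_le hn
    rw [hyadd]
    have := pf_avg (Q j a) (y b N) (hQ0 j a) (hQs j a) (y b N c - ε) (y b N c + ε)
      (fun c' => by linarith [hN c c']) (fun c' => by linarith [hN c' c])
    rw [abs_le]
    constructor <;> linarith [this.1, this.2]
  have hcau : ∀ b a, CauchySeq (fun k => y b k a) := by
    intro b a
    rw [Metric.cauchySeq_iff']
    intro ε hε
    obtain ⟨N, hN⟩ := hsmall b (ε / 2) (by linarith)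
    refine ⟨N, fun n hn => ?_⟩
    rw [Real.dist_eq]
    have := hlater b N (ε / 2) hN n hn a a
    linarith
  have hex : ∀ b a, ∃ l, Tendsto (fun k => y b k a) atTop (𝓝 l) := fun b a =>
    cauchySeq_tendsto_of_complete (hcau b a)
  choose l hl using hex
  have hll : ∀ b a a', l b a = l b a' := by
    intro b a a'
    by_contra hne
    have hpos : 0 < |l b a - l b a'| := abs_pos.2 (sub_ne_zero.2 hne)
    obtain ⟨N, hN⟩ := hsmall b (|l b a - l b a'| / 4) (by linarith)
    have h1 : |l b a - l b a'| ≤ |l b a - l b a'| / 2 := by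
      have h2 : Tendsto (fun n => |y b n a - y b n a'|) atTop (𝓝 |l b a - l b a'|) :=
        ((hl b a).sub (hl b a')).abs
      refine le_of_tendsto h2 ?_
      filter_upwards [eventually_ge_atTop N] with n hn
      have h3 := hlater b N _ hN n hn a a
      have h4 := hlater b N _ hN n hn a' a
      have h5 : y b n a - y b n a' = (y b n a - y b N a) - (y b n a' - y b N a) := by ring
      rw [h5]
      calc |(y b n a - y b N a) - (y b n a' - y b N a)| ≤ |y b n a - y b N a| + |y b n a' - y b N a| :=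
            abs_sub _ _
        _ ≤ _ := by linarith
    linarith
  set a0 : Fin d := ⟨0, hd⟩ with ha0
  set f : Fin d → ℝ := fun b => l b a0 with hf
  have hyf : ∀ b a, Tendsto (fun k => y b k a) atTop (𝓝 (f b)) := by
    intro b a
    have := hl b a
    rwa [hll b a a0] at this
  have hAf : ∀ a b, Tendsto (fun k : ℕ => pf_A M θ k b a) atTop (𝓝 (f b * L a)) := by
    intro a b
    refine ((hyf b a).mul_const (L a)).congr fun k => ?_
    simp only [hy]
    field_simp [(hL a).ne']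
  have hfpos : ∀ b, 0 < f b := by
    intro b
    obtain ⟨p, hp⟩ := Finite.exists_min (fun a => y b k0 a)
    have hpp : 0 < y b k0 p := by
      have : (0 : ℝ) < (((M ^ k0) b p : ℤ) : ℝ) := by exact_mod_cast hk0 b p
      exact div_pos (div_pos this (by positivity)) (hL p)
    refine lt_of_lt_of_le hpp ?_
    refine ge_of_tendsto (hyf b a0) ?_
    filter_upwards [eventually_ge_atTop k0] with n hn
    obtain ⟨j, rfl⟩ := Nat.exists_eq_add_of_le hn
    obtain ⟨p', hp'⟩ := Finite.exists_max (fun a => y b k0 a)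
    rw [hyadd]
    exact (pf_avg (Q j a0) (y b k0) (hQ0 j a0) (hQs j a0) (y b k0 p) (y b k0 p') hp hp').1
  have hfL : ∑ b, f b * L b = 1 := by
    have h1 : Tendsto (fun k => ∑ b, L b * pf_A M θ k b a0) atTop
        (𝓝 (∑ b, L b * (f b * L a0))) :=
      tendsto_finsetSum _ fun b _ => (hAf a0 b).const_mul _
    have h2 : Tendsto (fun k => ∑ b, L b * pf_A M θ k b a0) atTop (𝓝 (L a0)) := by
      refine tendsto_const_nhds.congr fun k => ?_
      rw [hLj]
    have h3 := tendsto_nhds_unique h1 h2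
    have h4 : ∑ b, L b * (f b * L a0) = (∑ b, f b * L b) * L a0 := by
      rw [Finset.sum_mul]
      exact Finset.sum_congr rfl fun b _ => by ring
    rw [h4] at h3
    exact mul_right_cancel₀ (hL a0).ne' (by rw [h3, one_mul])
  have hAfix : ∀ b, ∑ a, pf_A M θ 1 b a * f a = f b := by
    intro b
    have h1 : Tendsto (fun k => pf_A M θ (1 + k) b a0) atTop (𝓝 (∑ c, pf_A M θ 1 b c * (f c * L a0))) := by
      have : Tendsto (fun k => ∑ c, pf_A M θ 1 b c * pf_A M θ k c a0) atTop
          (𝓝 (∑ c, pf_A M θ 1 b c * (f c * L a0))) :=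
        tendsto_finsetSum _ fun c _ => (hAf a0 c).const_mul _
      refine this.congr fun k => ?_
      rw [pf_A_add M hθ]
    have h2 : Tendsto (fun k => pf_A M θ (1 + k) b a0) atTop (𝓝 (f b * L a0)) :=
      ((tendsto_add_atTop_iff_nat 1).2 (hAf a0 b)).congr fun k => by rw [add_comm]
    have h3 := tendsto_nhds_unique h1 h2
    have h4 : ∑ c, pf_A M θ 1 b c * (f c * L a0) = (∑ c, pf_A M θ 1 b c * f c) * L a0 := by
      rw [Finset.sum_mul]
      exact Finset.sum_congr rfl fun b _ => by ring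
    rw [h4] at h3
    exact mul_right_cancel₀ (hL a0).ne' h3
  set s : ℝ := ∑ b, f b with hs
  have hspos : 0 < s := Finset.sum_pos (fun b _ => hfpos b) Finset.univ_nonempty
  have hM1 : ∀ b a, (M b a : ℝ) = θ * pf_A M θ 1 b a := by
    intro b a
    unfold pf_A
    rw [pow_one, pow_one]
    field_simp
  refine ⟨fun a => s * L a, fun b => f b / s, fun a => mul_pos hspos (hL a),
    fun a => div_pos (hfpos a) hspos, ?_, ?_, ?_, ?_, ?_⟩
  · intro a
    calc ∑ b, s * L b * (M b a : ℝ) = θ * s * ∑ b, L b * pf_A M θ 1 b a := by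
          rw [Finset.mul_sum]
          refine Finset.sum_congr rfl fun b _ => ?_
          rw [hM1]; ring
      _ = θ * (s * L a) := by rw [hLe]; ring
  · intro b
    calc ∑ a, (M b a : ℝ) * (f a / s) = θ / s * ∑ a, pf_A M θ 1 b a * f a := by
          rw [Finset.mul_sum]
          refine Finset.sum_congr rfl fun a _ => ?_
          rw [hM1]; ring
      _ = θ * (f b / s) := by rw [hAfix]; ring
  · rw [← Finset.sum_div, ← hs]
    exact div_self hspos.ne'
  · rw [← hfL]
    refine Finset.sum_congr rfl fun a _ => ?_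
    field_simp
  · intro a b
    have h1 := hAf a b
    have h2 : f b / s * (s * L a) = f b * L a := by
      field_simp
    rw [h2]
    exact h1

end Pool.Agent.Helper97.FS
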